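import Pool.Agent.H937.QS.Stm3
import Pool.Graph.R_seed8.W559.Wr.AllR
import Pool.Graph.R_seed8.H920R2.Cu10

/-!
Project QS, task FIX: symmetric functions and the field of invariants.
-/

set_option autoImplicit false

open scoped Matrix TensorProduct
open Pool.Agent.H937.QS
universe u
namespace Pool.Agent.H289.QS.FIX

open Pool.Agent.W559.Wr

/-- the multiplication map on the tensor power of `B` -/
theorem mul_homB {k K M : Type u} [Field k] [Field K] [Algebra k K] [Field M] [Algebra k M]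
    {n : ℕ} (e : Fin n → K →ₐ[k] M) (B : Subalgebra k K) :
    ∃ α : (⨂[k] _ : Fin n, B) →ₐ[k] M,
      ∀ x : Fin n → B, α (PiTensorProduct.tprod k x) = ∏ j, e j (x j) := by
  have h0 : ∀ x : Fin n → B, ((MultilinearMap.mkPiAlgebra k (Fin n) M).compLinearMap
      fun j => ((e j).comp B.val).toLinearMap) x = ∏ j, e j (x j) := by
    intro x
    rw [MultilinearMap.compLinearMap_apply, MultilinearMap.mkPiAlgebra_apply]
    rfl
  refine ⟨PiTensorProduct.liftAlgHom ((MultilinearMap.mkPiAlgebra k (Fin n) M).compLinearMap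
    fun j => ((e j).comp B.val).toLinearMap) ?_ ?_, ?_⟩
  · rw [h0]
    exact Finset.prod_eq_one fun j _ => map_one (e j)
  · intro x y
    rw [h0, h0, h0, ← Finset.prod_mul_distrib]
    exact Finset.prod_congr rfl fun j _ => map_mul (e j) _ _
  · intro x
    exact (PiTensorProduct.lift.tprod x).trans (h0 x)

theorem mul_homB_single {k K M : Type u} [Field k] [Field K] [Algebra k K] [Field M]
    [Algebra k M] {n : ℕ} (e : Fin n → K →ₐ[k] M) (B : Subalgebra k K)
    (α : (⨂[k] _ : Fin n, B) →ₐ[k] M)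
    (h : ∀ x : Fin n → B, α (PiTensorProduct.tprod k x) = ∏ j, e j (x j)) (i : Fin n) (b : B) :
    α (PiTensorProduct.singleAlgHom (R := k) (A := fun _ : Fin n => B) i b) = e i b := by
  have h1 : PiTensorProduct.singleAlgHom (R := k) (A := fun _ : Fin n => B) i b =
      PiTensorProduct.tprod k (Pi.mulSingle i b) := rfl
  rw [h1, h, Finset.prod_eq_single i]
  · rw [Pi.mulSingle_eq_same]
  · intro j _ hj
    rw [Pi.mulSingle_eq_of_ne hj, OneMemClass.coe_one, map_one]
  · intro hi
    exact absurd (Finset.mem_univ i) hi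

theorem mul_homB_inj (hCOP : S_COP.{u}) {k K M : Type u} [Field k] [Field K] [Algebra k K]
    [Field M] [Algebra k M] {n : ℕ} (e : Fin n → K →ₐ[k] M) (he : LDis e) (B : Subalgebra k K)
    (α : (⨂[k] _ : Fin n, B) →ₐ[k] M)
    (h : ∀ x : Fin n → B, α (PiTensorProduct.tprod k x) = ∏ j, e j (x j)) :
    Function.Injective α := by
  obtain ⟨R, _, _, j, γ, hj, hγ, hγj⟩ := hCOP k K M n e he B
  obtain ⟨g, hg⟩ := hj.lift (⨂[k] _ : Fin n, B)
    (fun i => PiTensorProduct.singleAlgHom (R := k) (A := fun _ : Fin n => B) i)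
  have hc := Pool.Agent.H920R2.isCoprod_pi (k := k) (A := fun _ : Fin n => B)
  obtain ⟨f, hf⟩ := hc.lift R j
  have h1 : γ.comp f = α := by
    apply hc.ext
    intro i a
    rw [AlgHom.comp_apply, hf, hγj, mul_homB_single e B α h]
  have h2 : g.comp f = AlgHom.id k _ := by
    apply hc.ext
    intro i a
    rw [AlgHom.comp_apply, hf, hg]
    rfl
  intro x y hxy
  rw [← h1, AlgHom.comp_apply, AlgHom.comp_apply] at hxy
  have h3 := hγ hxy
  have h4 : ∀ z, g (f z) = z := fun z => by
    have := DFunLike.congr_fun h2 z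
    exact this
  rw [← h4 x, ← h4 y, h3]

/-- the product of the values is a symmetric function -/
theorem prod_mem_Esym {k B M : Type u} [Field k] [CommRing B] [Algebra k B] [Field M]
    [Algebra k M] {n : ℕ} (ev : B →ₐ[k] (Fin n → M)) (b : B) : ∏ q, ev b q ∈ Esym k ev := by
  apply Algebra.subset_adjoin
  refine ⟨-b, 0, ?_⟩
  rw [Polynomial.coeff_zero_eq_eval_zero, Polynomial.eval_prod]
  refine Finset.prod_congr rfl fun q _ => ?_
  rw [Polynomial.eval_sub, Polynomial.eval_X, Polynomial.eval_C, map_neg, Pi.neg_apply,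
    zero_sub, neg_neg]

theorem part1 {k K M : Type u} [Field k] [Field K] [Algebra k K] [Field M] [Algebra k M]
    {n : ℕ} (e : Fin n → K →ₐ[k] M) (B : Subalgebra k K) :
    ∀ x ∈ Esym k (evK e B),
      x ∈ IntermediateField.fixedField (permGrp e (⊤ : Subgroup (Equiv.Perm (Fin n)))) := by
  intro x hx
  have h1 : Esym k (evK e B) ≤ (IntermediateField.fixedField
      (permGrp e (⊤ : Subgroup (Equiv.Perm (Fin n))))).toSubalgebra := by
    apply Algebra.adjoin_le
    rintro _ ⟨b, m, rfl⟩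
    change _ ∈ IntermediateField.fixedField (permGrp e (⊤ : Subgroup (Equiv.Perm (Fin n))))
    rw [IntermediateField.mem_fixedField_iff]
    rintro σ ⟨g, -, hg⟩
    have h2 : (∏ q, (Polynomial.X - Polynomial.C (evK e B b q))).map
        (σ : M →+* M) = ∏ q, (Polynomial.X - Polynomial.C (evK e B b q)) := by
      rw [Polynomial.map_prod]
      refine Fintype.prod_equiv g _ _ fun q => ?_
      rw [Polynomial.map_sub, Polynomial.map_X, Polynomial.map_C]
      congr 2
      exact hg q b
    have h3 := congrArg (fun p => Polynomial.coeff p m) h2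
    simp only [Polynomial.coeff_map] at h3
    exact h3
  exact h1 hx

theorem perm_mul {k K M : Type u} [Field k] [Field K] [Algebra k K] [Field M] [Algebra k M]
    {n : ℕ} (e : Fin n → K →ₐ[k] M) (B : Subalgebra k K)
    (α : (⨂[k] _ : Fin n, B) →ₐ[k] M)
    (h : ∀ x : Fin n → B, α (PiTensorProduct.tprod k x) = ∏ j, e j (x j))
    (g : Equiv.Perm (Fin n)) (σ : M ≃ₐ[k] M) (hσ : ∀ i x, σ (e i x) = e (g i) x)
    (t : ⨂[k] _ : Fin n, B) :
    α (PiTensorProduct.reindex k (fun _ => B) g t) = σ (α t) := by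
  induction t using PiTensorProduct.induction_on with
  | smul_tprod r x =>
    rw [map_smul, map_smul, map_smul, map_smul, PiTensorProduct.reindex_tprod, h, h, map_prod]
    congr 1
    refine (Fintype.prod_equiv g _ _ fun q => ?_).symm
    rw [hσ, Equiv.symm_apply_apply]
  | add a b ha hb =>
    rw [map_add, map_add, map_add, map_add, ha, hb]

theorem part2 (hCOP : S_COP.{u}) (hSYM : S_SYM.{u}) {k K M : Type u} [Field k] [Infinite k]
    [Field K] [Algebra k K] [Field M] [Algebra k M]
    {n : ℕ} (e : Fin n → K →ₐ[k] M) (he : LDis e) (hM : ⨆ i, (e i).fieldRange = ⊤)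
    (B : Subalgebra k K) :
    ∀ x ∈ (⨆ i, B.map (e i) : Subalgebra k M),
    x ∈ IntermediateField.fixedField (permGrp e (⊤ : Subgroup (Equiv.Perm (Fin n)))) →
    x ∈ Esym k (evK e B) := by
  intro x hx hfix
  obtain ⟨α, hα⟩ := mul_homB e B
  have hinj := mul_homB_inj hCOP e he B α hα
  have hle : (⨆ i, B.map (e i) : Subalgebra k M) ≤ α.range := by
    refine iSup_le fun i => ?_
    rintro _ ⟨b, hb, rfl⟩
    exact ⟨_, mul_homB_single e B α hα i ⟨b, hb⟩⟩
  obtain ⟨t, rfl⟩ := hle hx
  have hsym : ∀ g : Equiv.Perm (Fin n), PiTensorProduct.reindex k (fun _ => B) g t = t := by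
    intro g
    obtain ⟨σ, hσ⟩ := Pool.Agent.W45.WR.liftStm k K M (Fin n) e he hM g
    apply hinj
    rw [perm_mul e B α hα g σ hσ]
    rw [IntermediateField.mem_fixedField_iff] at hfix
    exact hfix σ ⟨g, Subgroup.mem_top g, hσ⟩
  have hspan := hSYM k B n t hsym
  clear hsym hfix hx
  change α t ∈ Esym k (evK e B)
  induction hspan using Submodule.span_induction with
  | mem y hy =>
    obtain ⟨b, rfl⟩ := hy
    change α (PiTensorProduct.tprod k fun _ : Fin n => b) ∈ _
    rw [hα]
    exact prod_mem_Esym (evK e B) b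
  | zero =>
    rw [map_zero]
    exact Subalgebra.zero_mem _
  | add y z _ _ hy hz =>
    rw [map_add]
    exact Subalgebra.add_mem _ hy hz
  | smul c y _ hy =>
    rw [map_smul]
    exact Subalgebra.smul_mem _ hy c

theorem uniq {k K M : Type u} [Field k] [Field K] [Algebra k K] [Field M] [Algebra k M]
    {n : ℕ} (e : Fin n → K →ₐ[k] M) (hM : ⨆ i, (e i).fieldRange = ⊤) (σ τ : M ≃ₐ[k] M)
    (h : ∀ i x, σ (e i x) = τ (e i x)) : σ = τ := by
  have h1 : ∀ y ∈ (⨆ i, (e i).fieldRange : IntermediateField k M), σ y = τ y := by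
    intro y hy
    let E : IntermediateField k M :=
      { carrier := {y | σ y = τ y}
        mul_mem' := fun {a b} ha hb => by
          change σ (a * b) = τ (a * b)
          rw [map_mul, map_mul, ha, hb]
        add_mem' := fun {a b} ha hb => by
          change σ (a + b) = τ (a + b)
          rw [map_add, map_add, ha, hb]
        algebraMap_mem' := fun r => by
          change σ _ = τ _
          rw [AlgEquiv.commutes, AlgEquiv.commutes]
        inv_mem' := fun a ha => by
          change σ _ = τ _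
          rw [map_inv₀, map_inv₀, ha] }
    have hE : (⨆ i, (e i).fieldRange : IntermediateField k M) ≤ E := by
      refine iSup_le fun i => ?_
      rintro _ ⟨x, rfl⟩
      exact h i x
    exact hE hy
  apply AlgEquiv.ext
  intro y
  apply h1
  rw [hM]
  trivial

theorem quot {k K M : Type u} [Field k] [Field K] [Algebra k K] [Field M] [Algebra k M]
    {n : ℕ} (e : Fin n → K →ₐ[k] M) (hM : ⨆ i, (e i).fieldRange = ⊤) (B : Subalgebra k K)
    (hB : ∀ x : K, ∃ a ∈ B, ∃ b ∈ B, b ≠ 0 ∧ x = a / b) (x : M) :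
    ∃ a ∈ (⨆ i, B.map (e i) : Subalgebra k M), ∃ b ∈ (⨆ i, B.map (e i) : Subalgebra k M),
      b ≠ 0 ∧ x = a / b := by
  have h1 : IntermediateField.adjoin k ((⨆ i, B.map (e i) : Subalgebra k M) : Set M) = ⊤ := by
    rw [eq_top_iff, ← hM, iSup_le_iff]
    rintro i _ ⟨y, rfl⟩
    obtain ⟨a, ha, b, hb, -, rfl⟩ := hB y
    have h2 : ∀ c ∈ B, e i c ∈
        IntermediateField.adjoin k ((⨆ i, B.map (e i) : Subalgebra k M) : Set M) := by
      intro c hc
      apply IntermediateField.subset_adjoin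
      exact (le_iSup (fun i => B.map (e i)) i) ⟨c, hc, rfl⟩
    change e i (a / b) ∈ _
    rw [map_div₀]
    exact IntermediateField.div_mem _ (h2 a ha) (h2 b hb)
  have hx : x ∈ IntermediateField.adjoin k ((⨆ i, B.map (e i) : Subalgebra k M) : Set M) := by
    rw [h1]
    trivial
  obtain ⟨r, hr, s, hs, hxe⟩ := IntermediateField.mem_adjoin_iff_div.1 hx
  rw [Algebra.adjoin_eq] at hr hs
  by_cases h0 : s = 0
  · refine ⟨0, Subalgebra.zero_mem _, 1, Subalgebra.one_mem _, one_ne_zero, ?_⟩
    rw [hxe, h0, div_zero, zero_div]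
  · exact ⟨r, hr, s, hs, h0, hxe⟩

theorem t_FIX (hCOP : S_COP.{u}) (hSYM : S_SYM.{u}) : S_FIX.{u} := by
  intro k K M _ _ _ _ _ _ n e he hM B
  refine ⟨part1 e B, part2 hCOP hSYM e he hM B, fun hB x hx => ?_⟩
  classical
  choose s hs using Pool.Agent.W45.WR.liftStm k K M (Fin n) e he hM
  have hmul : ∀ g h, s (g * h) = s g * s h := by
    intro g h
    apply uniq e hM
    intro i x
    rw [hs, AlgEquiv.mul_apply, hs, hs]
    rfl
  have hone : s 1 = 1 := by
    apply uniq e hM
    intro i x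
    rw [hs]
    rfl
  have hR : ∀ g, ∀ y ∈ (⨆ i, B.map (e i) : Subalgebra k M),
      s g y ∈ (⨆ i, B.map (e i) : Subalgebra k M) := by
    intro g y hy
    have h1 : (⨆ i, B.map (e i) : Subalgebra k M) ≤
        (⨆ i, B.map (e i) : Subalgebra k M).comap ((s g : M ≃ₐ[k] M) : M →ₐ[k] M) := by
      refine iSup_le fun i => ?_
      rintro _ ⟨b, hb, rfl⟩
      change s g (e i b) ∈ (⨆ i, B.map (e i) : Subalgebra k M)
      rw [hs]
      exact (le_iSup (fun i => B.map (e i)) (g i)) ⟨b, hb, rfl⟩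
    exact h1 hy
  obtain ⟨a, ha, b, hb, hb0, hxe⟩ := quot e hM B hB x
  have hfixx := IntermediateField.mem_fixedField_iff _ _ |>.1 hx
  have hb' : ∏ g : Equiv.Perm (Fin n), s g b ∈ (⨆ i, B.map (e i) : Subalgebra k M) :=
    prod_mem fun g _ => hR g b hb
  have hbfix : ∀ σ ∈ permGrp e (⊤ : Subgroup (Equiv.Perm (Fin n))),
      σ (∏ g : Equiv.Perm (Fin n), s g b) = ∏ g : Equiv.Perm (Fin n), s g b := by
    rintro σ ⟨g0, -, hσ⟩
    have h1 : σ = s g0 := uniq e hM _ _ fun i x => by rw [hσ, hs]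
    rw [h1, map_prod]
    refine Fintype.prod_equiv (Equiv.mulLeft g0) _ _ fun g => ?_
    rw [Equiv.coe_mulLeft, hmul]
    rfl
  have hb0' : ∏ g : Equiv.Perm (Fin n), s g b ≠ 0 := by
    rw [Finset.prod_ne_zero_iff]
    intro g _ h
    exact hb0 ((map_eq_zero_iff _ (s g).injective).1 h)
  have hxb : x * ∏ g : Equiv.Perm (Fin n), s g b =
      a * ∏ g ∈ Finset.univ.erase (1 : Equiv.Perm (Fin n)), s g b := by
    rw [← Finset.mul_prod_erase Finset.univ (fun g => s g b) (Finset.mem_univ 1), hone,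
      AlgEquiv.one_apply, hxe, ← mul_assoc, div_mul_cancel₀ a hb0]
  have ha' : x * ∏ g : Equiv.Perm (Fin n), s g b ∈ (⨆ i, B.map (e i) : Subalgebra k M) := by
    rw [hxb]
    exact Subalgebra.mul_mem _ ha (prod_mem fun g _ => hR g b hb)
  refine ⟨x * ∏ g : Equiv.Perm (Fin n), s g b, ?_, ∏ g : Equiv.Perm (Fin n), s g b, ?_, hb0', ?_⟩
  · refine part2 hCOP hSYM e he hM B _ ha' ?_
    rw [IntermediateField.mem_fixedField_iff]
    intro σ hσ
    rw [map_mul, hfixx σ hσ, hbfix σ hσ]
  · refine part2 hCOP hSYM e he hM B _ hb' ?_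
    rw [IntermediateField.mem_fixedField_iff]
    exact hbfix
  · rw [mul_div_cancel_right₀ x hb0']

end Pool.Agent.H289.QS.FIX
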